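import Pool.Agent.K7.H37.UK.Stm

/-!
# Ulam's knot game: division of a curve by the tent function (for job STR)
-/

set_option autoImplicit false

noncomputable section

namespace Pool.Agent.K7.H61.UK

open Set Filter Topology Pool.Agent.K7.H37.UK

theorem fext (f : ℝ → ℂ) (α β : ℝ) (h : α < β) (hc : Continuous f) (hα : f α = 0)
    (hβ : f β = 0) (hne : ∀ t ∈ Ioo α β, f t ≠ 0) (hl : LinEnds f α β) :
    ∃ F : ℝ → ℂ, Continuous F ∧ (∀ t, F t ≠ 0) ∧ (∀ t, t ≤ α → F t = F α) ∧
      (∀ t, β ≤ t → F t = F β) ∧
      ∀ t ∈ Icc α β, f t = ((min (t - α) (β - t) : ℝ) : ℂ) * F t := by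
  classical
  obtain ⟨ε, c0, c1, hε, h0, h1⟩ := hl
  set δ : ℝ := min ε ((β - α) / 2) with hδ
  have hδ0 : 0 < δ := lt_min hε (by linarith)
  have hδε : δ ≤ ε := min_le_left _ _
  have hδ2 : δ ≤ (β - α) / 2 := min_le_right _ _
  have g0 : ∀ t, α ≤ t → t ≤ α + δ → f t = ((t - α : ℝ) : ℂ) * c0 := by
    intro t ht1 ht2
    rw [h0 t ⟨ht1, by linarith⟩, hα, zero_add]
  have g1 : ∀ t, β - δ ≤ t → t ≤ β → f t = ((β - t : ℝ) : ℂ) * c1 := by
    intro t ht1 ht2
    rw [h1 t ⟨by linarith, ht2⟩, hβ, zero_add]
  have hc0 : c0 ≠ 0 := by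
    intro hc0
    have := g0 (α + δ / 2) (by linarith) (by linarith)
    rw [hc0, mul_zero] at this
    exact hne (α + δ / 2) ⟨by linarith, by linarith⟩ this
  have hc1 : c1 ≠ 0 := by
    intro hc1
    have := g1 (β - δ / 2) (by linarith) (by linarith)
    rw [hc1, mul_zero] at this
    exact hne (β - δ / 2) ⟨by linarith, by linarith⟩ this
  set F : ℝ → ℂ := fun t => if t ≤ α then c0 else if β ≤ t then c1 else
    f t / ((min (t - α) (β - t) : ℝ) : ℂ) with hF
  have F0 : ∀ t, t < α + δ → F t = c0 := by
    intro t ht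
    by_cases hta : t ≤ α
    · simp [hF, hta]
    · push Not at hta
      have hb : ¬ β ≤ t := by linarith
      have ha : ¬ t ≤ α := by linarith
      have hmin : min (t - α) (β - t) = t - α := min_eq_left (by linarith)
      simp only [hF, if_neg ha, if_neg hb, hmin]
      rw [g0 t hta.le ht.le]
      have : ((t - α : ℝ) : ℂ) ≠ 0 := by
        have h3 : 0 < t - α := by linarith
        exact_mod_cast h3.ne'
      field_simp
  have F1 : ∀ t, β - δ < t → F t = c1 := by
    intro t ht
    have ha : ¬ t ≤ α := by linarith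
    by_cases htb : β ≤ t
    · simp [hF, ha, htb]
    · have hmin : min (t - α) (β - t) = β - t := min_eq_right (by linarith)
      simp only [hF, if_neg ha, if_neg htb, hmin]
      push Not at htb
      rw [g1 t ht.le htb.le]
      have : ((β - t : ℝ) : ℂ) ≠ 0 := by
        have h3 : 0 < β - t := by linarith
        exact_mod_cast h3.ne'
      field_simp
  have Fm : ∀ t, α < t → t < β → F t = f t / ((min (t - α) (β - t) : ℝ) : ℂ) := by
    intro t h1 h2
    simp [hF, not_le.2 h1, not_le.2 h2]
  refine ⟨F, ?_, ?_, ?_, ?_, ?_⟩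
  · rw [continuous_iff_continuousAt]
    intro t
    by_cases h1 : t < α + δ
    · have : F =ᶠ[𝓝 t] fun _ => c0 := by
        filter_upwards [Iio_mem_nhds h1] with s hs using F0 s hs
      exact this.continuousAt
    · by_cases h2 : β - δ < t
      · have : F =ᶠ[𝓝 t] fun _ => c1 := by
          filter_upwards [Ioi_mem_nhds h2] with s hs using F1 s hs
        exact this.continuousAt
      · push Not at h1 h2
        have h3 : α < t := by linarith
        have h4 : t < β := by linarith
        have : F =ᶠ[𝓝 t] fun s => f s / ((min (s - α) (β - s) : ℝ) : ℂ) := by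
          filter_upwards [Ioo_mem_nhds h3 h4] with s hs using Fm s hs.1 hs.2
        refine ContinuousAt.congr ?_ this.symm
        refine ContinuousAt.div hc.continuousAt ?_ ?_
        · fun_prop
        · have : 0 < min (t - α) (β - t) := lt_min (by linarith) (by linarith)
          exact_mod_cast this.ne'
  · intro t
    by_cases h1 : t < α + δ
    · rw [F0 t h1]; exact hc0
    · by_cases h2 : β - δ < t
      · rw [F1 t h2]; exact hc1
      · push Not at h1 h2
        have h3 : α < t := by linarith
        have h4 : t < β := by linarith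
        rw [Fm t h3 h4]
        have : 0 < min (t - α) (β - t) := lt_min (by linarith) (by linarith)
        exact div_ne_zero (hne t ⟨h3, h4⟩) (by exact_mod_cast this.ne')
  · intro t ht
    rw [F0 t (by linarith), F0 α (by linarith)]
  · intro t ht
    rw [F1 t (by linarith), F1 β (by linarith)]
  · intro t ht
    obtain ⟨ht1, ht2⟩ := ht
    rcases ht1.eq_or_lt with rfl | h3
    · simp [hα, min_eq_left (by linarith : (0 : ℝ) ≤ β - α)]
    · rcases ht2.eq_or_lt with rfl | h4
      · simp [hβ, min_eq_right (by linarith : (0 : ℝ) ≤ t - α)]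
      · rw [Fm t h3 h4]
        have : 0 < min (t - α) (β - t) := lt_min (by linarith) (by linarith)
        have h5 : ((min (t - α) (β - t) : ℝ) : ℂ) ≠ 0 := by exact_mod_cast this.ne'
        field_simp

end Pool.Agent.K7.H61.UK
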